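import Mathlib
import Pool.Agent.Lib.Pf72d10.Power

set_option autoImplicit false

open Polynomial Finset

namespace Pool.Agent.Results.MP_f72d10_lc.PowerGap

/-- `S_ℝ(f)`: the least support-sum `∑ |g_i|_0` over all representations
`f = ∑_{i<s} c_i g_i ^ 2` with `s ≥ 1` terms, real polynomials `g_i` and real `c_i` of any sign. -/
noncomputable def supportSumSize (f : ℝ[X]) : ℕ :=
  sInf {N : ℕ | ∃ (s : ℕ) (c : Fin s → ℝ) (g : Fin s → ℝ[X]), 1 ≤ s ∧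
    f = ∑ i, C (c i) * g i ^ 2 ∧ ∑ i, (g i).support.card = N}

/-- There is a constant `K` such that for every `d ≥ 1` some real polynomial of degree `d` with
`d` distinct real roots has support-sum size at most `K * d ^ (1 - 1/2200)`. -/
theorem result : ∃ K : ℝ, 0 < K ∧ ∀ d : ℕ, 1 ≤ d → ∃ f : ℝ[X],
    f.natDegree = d ∧ f.roots.toFinset.card = d ∧
      (supportSumSize f : ℝ) ≤ K * (d : ℝ) ^ (1 - 1 / 2200 : ℝ) := by
  refine ⟨28 * 4 ^ 96 * 2, by positivity, fun d hd => ?_⟩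
  obtain ⟨h1, h2⟩ := Pool.Agent.Pf72d10.F_degree_roots d
  refine ⟨Pool.Agent.Pf72d10.F (d + 1), h1, h2, ?_⟩
  obtain ⟨S, ⟨s, c, g, hf, hS⟩, hb⟩ := Pool.Agent.Pf72d10.F_cost_power (d + 1) (by omega)
  have hs : 1 ≤ s := by
    rcases Nat.eq_zero_or_pos s with rfl | hs
    · exfalso
      apply Pool.Agent.Pf72d10.F_ne_zero (d + 1) (by omega)
      rw [hf]; simp
    · exact hs
  have hle : supportSumSize (Pool.Agent.Pf72d10.F (d + 1)) ≤ ∑ i, (g i).support.card :=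
    Nat.sInf_le ⟨s, c, g, hs, hf, rfl⟩
  have hle' : (supportSumSize (Pool.Agent.Pf72d10.F (d + 1)) : ℝ) ≤ (S : ℝ) := by
    exact_mod_cast hle.trans hS
  have hd' : (0 : ℝ) < d := by exact_mod_cast hd
  have hpow : ((d + 1 : ℕ) : ℝ) ^ (1 - 1 / 2200 : ℝ) ≤ 2 * (d : ℝ) ^ (1 - 1 / 2200 : ℝ) := by
    calc ((d + 1 : ℕ) : ℝ) ^ (1 - 1 / 2200 : ℝ) ≤ (2 * (d : ℝ)) ^ (1 - 1 / 2200 : ℝ) := by
          apply Real.rpow_le_rpow (by positivity) _ (by norm_num)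
          push_cast
          have : (1 : ℝ) ≤ d := by exact_mod_cast hd
          linarith
      _ = (2 : ℝ) ^ (1 - 1 / 2200 : ℝ) * (d : ℝ) ^ (1 - 1 / 2200 : ℝ) :=
          Real.mul_rpow (by norm_num) hd'.le
      _ ≤ (2 : ℝ) ^ (1 : ℝ) * (d : ℝ) ^ (1 - 1 / 2200 : ℝ) := by
          apply mul_le_mul_of_nonneg_right _ (by positivity)
          exact Real.rpow_le_rpow_of_exponent_le (by norm_num) (by norm_num)
      _ = _ := by rw [Real.rpow_one]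
  calc (supportSumSize (Pool.Agent.Pf72d10.F (d + 1)) : ℝ) ≤ S := hle'
    _ ≤ 28 * 4 ^ 96 * ((d + 1 : ℕ) : ℝ) ^ (1 - 1 / 2200 : ℝ) := hb
    _ ≤ 28 * 4 ^ 96 * (2 * (d : ℝ) ^ (1 - 1 / 2200 : ℝ)) :=
        mul_le_mul_of_nonneg_left hpow (by positivity)
    _ = _ := by ring

end Pool.Agent.Results.MP_f72d10_lc.PowerGap
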